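import Mathlib

/-!
# Regular 2-pseudocompact paratopological groups are topological groups

Suppose that inversion is not continuous at `1`, and let `U`, `V` be neighbourhoods of `1` such that
no neighbourhood `N` of `1` has `N⁻¹ ⊆ U`, and `closure V ⊆ U`. Choose inductively open
neighbourhoods `N 0 ⊇ N 1 ⊇ ...` of `1` and points `y n ∈ N n` with `(y n)⁻¹ ∉ U`,
`N 0 * N 0 ⊆ V`, `N (n + 1) * N (n + 1) ⊆ N n` and `N (n + 1) ∩ y n • V = ∅`. Let
`W i = ⋃ j ≥ i, y j * N (j + 2)` and let `z` belong to the closures of all the sets `(W i)⁻¹`. Then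
`z⁻¹ ∈ W i * N i ⊆ N (i - 2)` for all `i`, hence `z⁻¹` is in all the sets `N n`; but
`z⁻¹ ∈ W 0 * N 1` gives a `j` with `z⁻¹ ∈ y j * N (j + 2) * N 1 ⊆ y j * V`, a contradiction with
`z⁻¹ ∈ N (j + 1)`.
-/

set_option autoImplicit false

open Topology Filter Set Pointwise

namespace Pool.Agent.Results.MP_82b063_al.RegularTwoPseudocompact

universe u

/-- `G` is 2-pseudocompact: for every decreasing sequence of nonempty open sets `U n`, the closures
of the sets `(U n)⁻¹` have a common point. -/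
def TwoPseudocompact (G : Type u) [Group G] [TopologicalSpace G] : Prop :=
  ∀ U : ℕ → Set G, (∀ n, IsOpen (U n)) → (∀ n, (U n).Nonempty) → (∀ n, U (n + 1) ⊆ U n) →
    (⋂ n, closure (U n)⁻¹).Nonempty

/-- `G` is regular: every neighbourhood of a point contains a closed neighbourhood of that point
(no separation axiom is assumed). -/
def Regular (G : Type u) [TopologicalSpace G] : Prop :=
  ∀ x : G, ∀ U ∈ 𝓝 x, ∃ C ∈ 𝓝 x, IsClosed C ∧ C ⊆ U

/-- the key step: continuity of the inversion at `1` -/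
theorem tendsto_inv_one (G : Type u) [Group G] [TopologicalSpace G] [ContinuousMul G]
    (hreg : Regular G) (h2 : TwoPseudocompact G) :
    Tendsto (fun x : G => x⁻¹) (𝓝 1) (𝓝 1) := by
  by_contra hcon
  -- `U` witnesses the discontinuity
  obtain ⟨U, hU, hUN⟩ : ∃ U ∈ 𝓝 (1 : G), ∀ N ∈ 𝓝 (1 : G), ∃ y ∈ N, y⁻¹ ∉ U := by
    rw [Filter.tendsto_def] at hcon
    push Not at hcon
    obtain ⟨U, hU, h⟩ := hcon
    refine ⟨U, hU, fun N hN => ?_⟩
    by_contra hc
    push Not at hc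
    exact h (mem_of_superset hN hc)
  obtain ⟨C, hC, hCc, hCU⟩ := hreg 1 U hU
  -- the separating neighbourhoods
  have hsep : ∀ y : G, y⁻¹ ∉ U → ∃ V ∈ 𝓝 (1 : G), ∀ v ∈ V, y⁻¹ * v ∉ C := by
    intro y hy
    have h1 : y⁻¹ ∈ Cᶜ := fun h => hy (hCU h)
    have h2 : Cᶜ ∈ 𝓝 (y⁻¹) := hCc.isOpen_compl.mem_nhds h1
    have h3 : Tendsto (fun v : G => y⁻¹ * v) (𝓝 1) (𝓝 (y⁻¹)) := by
      have := (continuous_const_mul (y⁻¹)).tendsto (1 : G)
      rwa [mul_one] at this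
    exact ⟨_, h3 h2, fun v hv => hv⟩
  -- the next neighbourhood
  have hstep : ∀ (N : Set G), N ∈ 𝓝 (1 : G) → ∃ (y : G) (N' : Set G), y ∈ N ∧ IsOpen N' ∧
      (1 : G) ∈ N' ∧ (∀ a ∈ N', ∀ b ∈ N', a * b ∈ N) ∧ ∀ v ∈ N', y⁻¹ * v ∉ C := by
    intro N hN
    obtain ⟨y, hyN, hyU⟩ := hUN N hN
    obtain ⟨V, hV, hVC⟩ := hsep y hyU
    obtain ⟨M, hMo, hM1, hMN⟩ := exists_open_nhds_one_mul_subset hN
    refine ⟨y, M ∩ interior V, hyN, hMo.inter isOpen_interior,
      ⟨hM1, mem_interior_iff_mem_nhds.mpr hV⟩, ?_, ?_⟩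
    · intro a ha b hb
      exact hMN (mul_mem_mul ha.1 hb.1)
    · intro v hv
      exact hVC v (interior_subset hv.2)
  obtain ⟨N0, hN0o, hN01, hN0C⟩ := exists_open_nhds_one_mul_subset hC
  choose! yf Nf hf using hstep
  let N : ℕ → Set G := fun n => Nat.rec N0 (fun _ M => Nf M) n
  have hNs : ∀ n, N (n + 1) = Nf (N n) := fun n => rfl
  have hNn : ∀ n, IsOpen (N n) ∧ (1 : G) ∈ N n := by
    intro n
    induction n with
    | zero => exact ⟨hN0o, hN01⟩
    | succ n ih =>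
      have h := hf (N n) (ih.1.mem_nhds ih.2)
      rw [hNs]
      exact ⟨h.2.1, h.2.2.1⟩
  have hNf := fun n => hf (N n) ((hNn n).1.mem_nhds (hNn n).2)
  have hmul : ∀ n, ∀ a ∈ N (n + 1), ∀ b ∈ N (n + 1), a * b ∈ N n := fun n => (hNf n).2.2.2.1
  have hsub : ∀ n, N (n + 1) ⊆ N n := by
    intro n a ha
    have := hmul n a ha 1 (hNn (n + 1)).2
    rwa [mul_one] at this
  have hanti : Antitone N := antitone_nat_of_succ_le hsub
  let y : ℕ → G := fun n => yf (N n)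
  have hyN : ∀ n, y n ∈ N n := fun n => (hNf n).1
  have hyC : ∀ n, ∀ v ∈ N (n + 1), (y n)⁻¹ * v ∉ C := fun n => (hNf n).2.2.2.2
  -- the decreasing sequence of open sets
  let W : ℕ → Set G := fun i => ⋃ j : {j : ℕ // i ≤ j}, (fun x => (y j)⁻¹ * x) ⁻¹' N (j + 2)
  have hWo : ∀ i, IsOpen (W i) := fun i =>
    isOpen_iUnion fun j => (hNn (j.1 + 2)).1.preimage (continuous_const_mul ((y j.1)⁻¹))
  have hWmem : ∀ i x, x ∈ W i ↔ ∃ j, i ≤ j ∧ (y j)⁻¹ * x ∈ N (j + 2) := by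
    intro i x
    simp only [W, mem_iUnion, mem_preimage, Subtype.exists, exists_prop]
  have hWne : ∀ i, (W i).Nonempty := by
    intro i
    refine ⟨y i, (hWmem _ _).mpr ⟨i, le_refl _, ?_⟩⟩
    rw [inv_mul_cancel]
    exact (hNn (i + 2)).2
  have hWsub : ∀ i, W (i + 1) ⊆ W i := by
    intro i x hx
    obtain ⟨j, hj, h⟩ := (hWmem _ _).mp hx
    exact (hWmem _ _).mpr ⟨j, by omega, h⟩
  obtain ⟨z, hz⟩ := h2 W hWo hWne hWsub
  -- `z⁻¹ ∈ W i * V` for all `i` and all neighbourhoods `V` of `1`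
  have key : ∀ i, ∀ V ∈ 𝓝 (1 : G), ∃ w ∈ W i, ∃ v ∈ V, z⁻¹ = w * v := by
    intro i V hV
    have hz1 : z ∈ closure (W i)⁻¹ := mem_iInter.mp hz i
    have hnb : (fun t => t * z⁻¹) ⁻¹' V ∈ 𝓝 z := by
      have ht : Tendsto (fun t : G => t * z⁻¹) (𝓝 z) (𝓝 1) := by
        have := (continuous_mul_const (z⁻¹)).tendsto z
        rwa [mul_inv_cancel] at this
      exact ht hV
    obtain ⟨t, ht1, ht2⟩ := mem_closure_iff_nhds.mp hz1 _ hnb
    refine ⟨t⁻¹, ht2, t * z⁻¹, ht1, by group⟩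
  -- hence `z⁻¹` belongs to all `N n`
  have hzN : ∀ n, z⁻¹ ∈ N n := by
    intro n
    obtain ⟨w, hw, v, hv, he⟩ := key (n + 2) (N (n + 1)) ((hNn (n + 1)).1.mem_nhds (hNn (n + 1)).2)
    obtain ⟨j, hj, h⟩ := (hWmem _ _).mp hw
    rw [he]
    refine hmul n _ ?_ _ hv
    have h3 : w = y j * ((y j)⁻¹ * w) := by group
    rw [h3]
    exact hmul (n + 1) _ (hanti (show n + 2 ≤ j from hj) (hyN j)) _
      (hanti (show n + 2 ≤ j + 2 by omega) h)
  -- the contradiction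
  obtain ⟨w, hw, v, hv, he⟩ := key 0 (N 1) ((hNn 1).1.mem_nhds (hNn 1).2)
  obtain ⟨j, -, h⟩ := (hWmem _ _).mp hw
  refine hyC j _ (hzN (j + 1)) ?_
  rw [he, ← mul_assoc]
  exact hN0C (mul_mem_mul (hanti (by omega : 0 ≤ j + 2) h) (hanti (by omega : 0 ≤ 1) hv))

/-- **Q2 of MP_82b063_al, answer yes.** Every regular 2-pseudocompact paratopological group is a
topological group. -/
theorem result (G : Type u) [Group G] [TopologicalSpace G] [ContinuousMul G]
    (hreg : Regular G) (h2 : TwoPseudocompact G) : IsTopologicalGroup G := by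
  have h1 := tendsto_inv_one G hreg h2
  have : ContinuousInv G := by
    refine ⟨continuous_iff_continuousAt.mpr fun x => ?_⟩
    -- `t⁻¹ = (x⁻¹ * t)⁻¹ * x⁻¹`
    have h3 : Tendsto (fun t : G => x⁻¹ * t) (𝓝 x) (𝓝 1) := by
      have := (continuous_const_mul (x⁻¹)).tendsto x
      rwa [inv_mul_cancel] at this
    have h4 : Tendsto (fun t : G => (x⁻¹ * t)⁻¹ * x⁻¹) (𝓝 x) (𝓝 (1 * x⁻¹)) :=
      (continuous_mul_const (x⁻¹)).tendsto (1 : G) |>.comp (h1.comp h3)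
    rw [one_mul] at h4
    refine h4.congr fun t => ?_
    group
  exact {}

end Pool.Agent.Results.MP_82b063_al.RegularTwoPseudocompact
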